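import Pool.Agent.Helper34.HS.NONL

/-! # HS-G STEP: the step of the continuity method -/

open Complex Metric Set Filter Topology MeasureTheory
open scoped ContDiff ComplexConjugate ComplexOrder Manifold Matrix

namespace Pool.Agent.Helper77.HS

open Pool.Agent.Helper95.Lin Pool.Agent.Helper16.Abund Pool.Agent.Helper92.Orb
  Pool.Agent.Helper10.SP Pool.Agent.Helper95.RK Pool.Agent.Helper57.HS Pool.Agent.Helper95.HS

universe u

variable {n : ℕ}

theorem continuous_hermi (e f : Cn n) :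
    Continuous fun A : Matrix (Fin n) (Fin n) ℂ => hermi A e f := by
  unfold hermi
  refine continuous_finsetSum _ fun i _ => continuous_finsetSum _ fun j _ => ?_
  exact ((continuous_id.matrix_elem i j).mul continuous_const).mul continuous_const

/-- Positive semidefinite matrices form a closed set. -/
theorem posSemidef_lim {A : ℕ → Matrix (Fin n) (Fin n) ℂ} {B : Matrix (Fin n) (Fin n) ℂ}
    (hA : ∀ j, (A j).PosSemidef) (hB : B.IsHermitian) (h : Tendsto A atTop (𝓝 B)) :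
    B.PosSemidef := by
  refine Matrix.PosSemidef.of_dotProduct_mulVec_nonneg hB fun x => ?_
  rw [Pool.Agent.Helper89.HS.star_dot_hermi]
  have h1 : Tendsto (fun j => hermi (A j) (star x) (star x)) atTop
      (𝓝 (hermi B (star x) (star x))) := ((continuous_hermi _ _).tendsto B).comp h
  refine ge_of_tendsto' h1 fun j => ?_
  rw [← Pool.Agent.Helper89.HS.star_dot_hermi]
  exact (hA j).dotProduct_mulVec_nonneg x

/-- Levi matrices of a sequence whose second derivatives converge. -/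
theorem tendsto_LM (hLMD2 : S_LMD2) {T : Set (Cn n)} (hT : IsOpen T) {v : ℕ → Cn n → ℝ}
    {w : Cn n → ℝ} (hv : ∀ j, ContDiffOn ℝ 2 (v j) T) (hw : ContDiffOn ℝ 2 w T) {x : Cn n}
    (hx : x ∈ T) (h : Tendsto (fun j => D2 (v j) x) atTop (𝓝 (D2 w x))) :
    Tendsto (fun j => LM (v j) x) atTop (𝓝 (LM w x)) := by
  have hd : ∀ e f : Cn n, Tendsto (fun j => D2 (v j) x e f) atTop (𝓝 (D2 w x e f)) :=
    fun e f => ((continuous_eval_const f).tendsto _).comp
      (((continuous_eval_const e).tendsto _).comp h)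
  refine tendsto_pi_nhds.2 fun j' => tendsto_pi_nhds.2 fun k' => ?_
  have h1 : ∀ j, LM (v j) x j' k' = _ := fun j => ((hLMD2 T (v j) hT (hv j)).1 x hx).2 j' k'
  have h2 := ((hLMD2 T w hT hw).1 x hx).2 j' k'
  rw [h2]
  simp only [h1]
  refine Tendsto.add ?_ (Tendsto.const_mul _ ?_)
  · exact (continuous_ofReal.tendsto _).comp ((hd _ _).add (hd _ _))
  · exact (continuous_ofReal.tendsto _).comp ((hd _ _).sub (hd _ _))

/-- The second derivative of a smooth function is locally Hölder. -/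
theorem HB_smooth {T : Set (Cn n)} (hT : IsOpen T) {v : Cn n → ℝ} (hv : ContDiffOn ℝ ∞ v T)
    {a : ℝ} (ha : 0 < a) (ha1 : a < 1) {x : Cn n} {r : ℝ} (hr1 : 2 * r ≤ 1)
    (hr : closedBall x r ⊆ T) : ∃ L, HB a (closedBall x r) L (D2 v) := by
  have h1 : ContDiffOn ℝ ∞ (fderiv ℝ v) T := hv.fderiv_of_isOpen hT (by simp)
  have h2 : ContDiffOn ℝ ∞ (D2 v) T := h1.fderiv_of_isOpen hT (by simp)
  have hlip : LocallyLipschitzOn (closedBall x r) (D2 v) := by
    intro y hy
    have h3 : ContDiffAt ℝ 1 (D2 v) y :=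
      (h2.contDiffAt (hT.mem_nhds (hr hy))).of_le (by exact_mod_cast le_top)
    obtain ⟨K, t, ht, hK⟩ := h3.exists_lipschitzOnWith
    exact ⟨K, t, mem_nhdsWithin_of_mem_nhds ht, hK⟩
  obtain ⟨L, hL⟩ := hlip.exists_lipschitzOnWith_of_compact (isCompact_closedBall x r)
  refine ⟨L, fun y hy z hz => ?_⟩
  have h4 : ‖D2 v y - D2 v z‖ ≤ L * ‖y - z‖ := by
    have h3 := hL.dist_le_mul y hy z hz
    rwa [dist_eq_norm, dist_eq_norm] at h3
  have h5 : ‖y - z‖ ≤ 1 := by
    rw [mem_closedBall, dist_eq_norm] at hy hz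
    have h6 : y - z = (y - x) - (z - x) := by abel
    rw [h6]
    exact (norm_sub_le _ _).trans (by linarith)
  have h7 : ‖y - z‖ ≤ ‖y - z‖ ^ a := by
    have h8 := Real.rpow_le_rpow_of_exponent_ge' (norm_nonneg (y - z)) h5 ha.le ha1.le
    rwa [Real.rpow_one] at h8
  exact h4.trans (mul_le_mul_of_nonneg_left h7 L.2)

/-- HS-G STEP. -/
theorem step (hKETP : Pool.Agent.Helper95.HS.S_KETP.{u}) (hDETI : S_DETI.{u}) (hREGN : S_REGN)
    (hITER : S_ITER.{u}) (hTRN : S_TRN.{u}) (hLMD2 : S_LMD2) (hLIMC : S_LIMC) : S_STEP.{u} := by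
  intro n T G _ R H X hH hX
  have hEt := hH.et
  have hTo := hEt.isOpen
  obtain ⟨C₁, C', hC₁, hC'T, hC'c, hC₁C', hit⟩ := hITER T R hEt
  refine ⟨C', hC'T, hC'c, ?_⟩
  intro a lam A₀ ha ha1 hlam hlam1 hA₀ g hg
  obtain ⟨δ, hδ, hit2⟩ := hit a lam A₀ ha ha1 hlam hlam1 hA₀ g hg
  refine ⟨δ, hδ, ?_⟩
  intro f u hf hMA hStp s hs
  obtain ⟨Q, hQdef⟩ : ∃ Q : Cn n → Matrix (Fin n) (Fin n) ℂ, Q = fun x => X x + LM u x := ⟨_, rfl⟩
  rw [← hQdef] at hStp
  obtain ⟨v, ρ, hvI, hv0, hvj⟩ := hit2 Q hStp s hs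
  have hKETP' := hKETP T R hEt
  have hQK : KEt T R Q := hStp.ket
  have hQchf := (hKETP'.2.1 Q Q hQK hQK).2
  have hXchf := (hKETP'.2.1 X X hX hX).2
  have h2le : (2 : WithTop ℕ∞) ≤ ∞ := WithTop.coe_le_coe.2 (le_top : (2 : ℕ∞) ≤ ⊤)
  have hv2 : ∀ j, ContDiffOn ℝ 2 (v j) T := fun j => (hvI j).1.of_le h2le
  -- the limit
  obtain ⟨w, hw2, hwl, hwB⟩ := hLIMC T a hTo ha v (fun j => (hvI j).1) hv0 (by
    intro C hC hCc
    obtain ⟨K, hK, hKT⟩ := hTRN T R hEt C₁ hC₁ C hC hCc a ha ha1.le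
    refine ⟨K * ρ, fun j => ?_⟩
    have hd := Pool.Agent.Helper34.HS.InvF.sub (hvI (j + 1)) (hvI j)
    have h1 := hKT (fun x => v (j + 1) x - v j x) (hd.1.of_le h2le) hd.2 _ (hvj j).2.2.2
    rw [mul_assoc]
    exact h1)
  have hwinv : ∀ γ x y, R γ x y → w y = w x := by
    intro γ x y h
    have hx := (hEt.mem γ x y h)
    have h1 := (hwl x hx.1).1
    have h2 := (hwl y hx.2).1
    have h3 : (fun j => v j y) = fun j => v j x := funext fun j => (hvI j).2 γ x y h
    rw [h3] at h2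
    exact tendsto_nhds_unique h2 h1
  have hLM : ∀ x ∈ T, Tendsto (fun j => LM (v j) x) atTop (𝓝 (LM w x)) := fun x hx =>
    tendsto_LM hLMD2 hTo hv2 hw2 hx (hwl x hx).2
  have hY : ∀ x ∈ T, Tendsto (fun j => Q x + LM (v j) x) atTop (𝓝 (Q x + LM w x)) := fun x hx =>
    (hLM x hx).const_add _
  have hYherm : ∀ x ∈ T, (Q x + LM w x).IsHermitian := fun x hx =>
    (hQK.posDef x hx).1.add ((hLMD2 T w hTo hw2).1 x hx).1
  have hYinv : InvH R (fun x => Q x + LM w x) := by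
    intro U τ hA x hx e f'
    obtain ⟨γ, hγ⟩ := hA.2.2
    have hmem := hEt.mem γ x (τ x) (hγ x hx)
    have h1 : Tendsto (fun j => hermi (Q (τ x) + LM (v j) (τ x)) (fderiv ℂ τ x e)
        (fderiv ℂ τ x f')) atTop (𝓝 (hermi (Q (τ x) + LM w (τ x)) (fderiv ℂ τ x e)
        (fderiv ℂ τ x f'))) := ((continuous_hermi _ _).tendsto _).comp (hY _ hmem.2)
    have h2 : Tendsto (fun j => hermi (Q x + LM (v j) x) e f') atTop
        (𝓝 (hermi (Q x + LM w x) e f')) := ((continuous_hermi _ _).tendsto _).comp (hY _ hmem.1)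
    have h3 : (fun j => hermi (Q (τ x) + LM (v j) (τ x)) (fderiv ℂ τ x e)
        (fderiv ℂ τ x f')) = fun j => hermi (Q x + LM (v j) x) e f' := by
      funext j
      exact (hKETP'.1 Q (v j) hQchf.1 hQchf.2 (hvI j)).2.1 U τ hA x hx e f'
    rw [h3] at h1
    exact tendsto_nhds_unique h1 h2
  have hYpos : ∀ x ∈ T, (Q x + LM w x).PosDef := by
    intro x hx
    obtain ⟨γ, y, hy, hR⟩ := hC₁.2.2 x hx
    have hyC' : y ∈ C' := hC₁C' (interior_subset hy)
    obtain ⟨τ, U, W, hU, hW, hxU, hyW, hUT, hWT, hdiff, hinj, hmaps, hdet, hiff⟩ :=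
      hEt.loc γ x y hR
    have hArr : Arr R U τ := ⟨hU, hdiff, γ, fun x' hx' =>
      (hiff x' hx' (τ x') (hmaps hx')).2 rfl⟩
    have hτx : τ x = y := ((hiff x hxU y hyW).1 hR).symm
    refine Pool.Agent.Helper34.HS.posDef_of_arrow (Y := fun x => Q x + LM w x) hYinv hArr hxU
      (hdet x hxU) (hYherm x hx) ?_
    rw [hτx]
    refine Pool.Agent.Helper34.HS.posDef_of_MLe (half_pos hlam) ?_
    have hyT := hC'T hyC'
    have h1 : ∀ j, ((Q y + LM (v j) y) - ((lam / 2 : ℝ) : ℂ) • 1).PosSemidef := fun j =>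
      ((hvj j).2.2.1 y hyC').1
    have h2 : Tendsto (fun j => (Q y + LM (v j) y) - ((lam / 2 : ℝ) : ℂ) • 1) atTop
        (𝓝 ((Q y + LM w y) - ((lam / 2 : ℝ) : ℂ) • 1)) := (hY y hyT).sub_const _
    refine posSemidef_lim h1 ?_ h2
    refine (hYherm y hyT).sub ?_
    have h3 : (((lam / 2 : ℝ) : ℂ) • (1 : Matrix (Fin n) (Fin n) ℂ)).PosDef :=
      Matrix.PosDef.one.smul (by exact_mod_cast half_pos hlam)
    exact h3.1
  -- the equation
  have hdetpos : ∀ A : Matrix (Fin n) (Fin n) ℂ, A.PosDef → 0 < A.det.re := fun A hA =>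
    (Complex.pos_iff.1 hA.det_pos).1
  have heq : ∀ x ∈ T, Real.log (Q x + LM w x).det.re = w x + s * g x + Real.log (Q x).det.re := by
    intro x hx
    have hc : Continuous fun A : Matrix (Fin n) (Fin n) ℂ =>
        (Matrix.trace ((Q x)⁻¹ * A)).re :=
      continuous_re.comp (Continuous.matrix_trace (continuous_const.matrix_mul continuous_id))
    have ht : Tendsto (fun j => (Matrix.trace ((Q x)⁻¹ * LM (v j) x)).re) atTop
        (𝓝 (Matrix.trace ((Q x)⁻¹ * LM w x)).re) := (hc.tendsto _).comp (hLM x hx)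
    have h1 : Tendsto (fun j => (Matrix.trace ((Q x)⁻¹ * LM (v (j + 1)) x)).re - v (j + 1) x) atTop
        (𝓝 ((Matrix.trace ((Q x)⁻¹ * LM w x)).re - w x)) :=
      (ht.comp (tendsto_add_atTop_nat 1)).sub ((hwl x hx).1.comp (tendsto_add_atTop_nat 1))
    have hcd : Continuous fun A : Matrix (Fin n) (Fin n) ℂ => A.det.re :=
      continuous_re.comp (Continuous.matrix_det continuous_id)
    have h2 : Tendsto (fun j => Real.log (Q x + LM (v j) x).det.re) atTop
        (𝓝 (Real.log (Q x + LM w x).det.re)) :=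
      Tendsto.log ((hcd.tendsto _).comp (hY x hx)) (hdetpos _ (hYpos x hx)).ne'
    have h3 : Tendsto (fun j => s * g x - qq Q (LM (v j)) x) atTop
        (𝓝 (s * g x - (Real.log (Q x + LM w x).det.re - Real.log (Q x).det.re -
          (Matrix.trace ((Q x)⁻¹ * LM w x)).re))) :=
      ((h2.sub_const _).sub ht).const_sub _
    have h4 : (fun j => (Matrix.trace ((Q x)⁻¹ * LM (v (j + 1)) x)).re - v (j + 1) x) =
        fun j => s * g x - qq Q (LM (v j)) x := by
      funext j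
      exact (hvj j).1 x hx
    rw [h4] at h1
    have h5 := tendsto_nhds_unique h1 h3
    linarith
  -- the new potential
  obtain ⟨u', hu'⟩ : ∃ u' : Cn n → ℝ, u' = fun y => u y + 1 * w y := ⟨_, rfl⟩
  have hu2 : ContDiffOn ℝ 2 u T := hMA.1.1.of_le h2le
  have hsum : ∀ x ∈ T, LM u' x = LM u x + LM w x ∧ D2 u' x = D2 u x + D2 w x := by
    intro x hx
    obtain ⟨h1, -, h3⟩ := (hLMD2 T u hTo hu2).2.2 w hw2 x hx 1
    rw [hu']
    rw [h1, h3]
    simp
  have hXu' : ∀ x ∈ T, X x + LM u' x = Q x + LM w x := by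
    intro x hx
    rw [(hsum x hx).1, hQdef]
    exact (add_assoc _ _ _).symm
  have hDH := hDETI T R H hH
  have hldH : ContDiffOn ℝ ∞ (fun x => Real.log (H x).det.re) T :=
    hDH.2.1.log fun x hx => (hDH.1 x hx).2.1.ne'
  have hlogQ : ∀ x ∈ T, Real.log (Q x).det.re = u x + f x + Real.log (H x).det.re := by
    intro x hx
    have h1 := hMA.2.2 x hx
    rw [hQdef]
    change Real.log (X x + LM u x).det.re = _
    rw [h1, Real.log_mul (Real.exp_pos _).ne' (hDH.1 x hx).2.1.ne', Real.log_exp]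
  have hfin : ∀ x ∈ T, Real.log (X x + LM u' x).det.re =
      u' x + (f x + s * g x + Real.log (H x).det.re) := by
    intro x hx
    rw [hXu' x hx, heq x hx, hlogQ x hx, hu']
    ring
  have hu'2 : ContDiffOn ℝ 2 u' T := by
    rw [hu']
    exact hu2.add (contDiffOn_const.mul hw2)
  have hsm : ContDiffOn ℝ ∞ u' T := by
    refine hREGN n a T X (fun x => f x + s * g x + Real.log (H x).det.re) u' ha ha1 hTo
      hX.smooth (fun x hx => (hX.posDef x hx).1)
      ((hf.1.add (contDiffOn_const.mul hg.1)).add hldH) hu'2 ?_ ?_ hfin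
    · intro x hx
      obtain ⟨r₀, hr₀, hr₀T⟩ := Metric.isOpen_iff.1 hTo x hx
      have hr : closedBall x (min (r₀ / 2) (1 / 2)) ⊆ T :=
        (closedBall_subset_ball ((min_le_left _ _).trans_lt (half_lt_self hr₀))).trans hr₀T
      obtain ⟨L, hL⟩ := HB_smooth hTo hMA.1.1 ha ha1 (x := x) (r := min (r₀ / 2) (1 / 2))
        (by linarith [min_le_right (r₀ / 2) (1 / 2 : ℝ)]) hr
      obtain ⟨K, hK⟩ := hwB _ hr (isCompact_closedBall _ _)
      refine ⟨closedBall x (min (r₀ / 2) (1 / 2)), closedBall_mem_nhds x (by positivity), L + K,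
        fun y hy z hz => ?_⟩
      rw [(hsum y (hr hy)).2, (hsum z (hr hz)).2]
      have h1 := hL y hy z hz
      have h2 := hK.2.2 y hy z hz
      have h3 : D2 u y + D2 w y - (D2 u z + D2 w z) = (D2 u y - D2 u z) + (D2 w y - D2 w z) := by
        abel
      have h4 : ‖(D2 u y - D2 u z) + (D2 w y - D2 w z)‖ ≤
          ‖D2 u y - D2 u z‖ + ‖D2 w y - D2 w z‖ :=
        norm_add_le (E := Cn n →L[ℝ] Cn n →L[ℝ] ℝ) _ _
      rw [h3, add_mul]
      exact h4.trans (add_le_add h1 h2)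
    · intro x hx
      rw [hXu' x hx]
      exact hYpos x hx
  have hInv : InvF T R u' := by
    refine ⟨hsm, fun γ x y h => ?_⟩
    rw [hu']
    change u y + 1 * w y = u x + 1 * w x
    rw [hMA.1.2 γ x y h, hwinv γ x y h]
  refine ⟨u', hInv, ?_, ?_⟩
  · refine (hKETP'.1 X u' hXchf.1 hXchf.2 hInv).2.2 fun x hx => ?_
    change (X x + LM u' x).PosDef
    rw [hXu' x hx]
    exact hYpos x hx
  · intro x hx
    have h1 := hfin x hx
    have h2 : 0 < (X x + LM u' x).det.re := by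
      rw [hXu' x hx]
      exact hdetpos _ (hYpos x hx)
    rw [← Real.exp_log h2, h1, ← add_assoc, Real.exp_add, Real.exp_log (hDH.1 x hx).2.1]

end Pool.Agent.Helper77.HS
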