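import Pool.Agent.Helper15.HS.GoalsC
import Pool.Agent.Helper10.SP.GoalsT

/-! HS-C DBC: bounded sequences of smooth functions with `∂̄ → 0` in `L¹` have subsequences which
converge in `L¹` to holomorphic functions. -/

open Complex Metric Set Filter Topology MeasureTheory
open scoped ContDiff ComplexConjugate ComplexOrder Manifold Matrix

namespace Pool.Agent.Helper77.HS

open Pool.Agent.Helper95.Lin Pool.Agent.Helper16.Abund Pool.Agent.Helper92.Orb
  Pool.Agent.Helper10.SP Pool.Agent.Helper95.RK Pool.Agent.Helper57.HS Pool.Agent.Helper15.HS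

variable {n : ℕ}

theorem memLp_cont {C : Set (Cn n)} (hC : IsCompact C) {g : Cn n → ℂ} (hg : ContinuousOn g C) :
    MemLp g 2 (volume.restrict C) := by
  have : IsFiniteMeasure (volume.restrict C) :=
    ⟨by rw [Measure.restrict_apply_univ]; exact hC.measure_lt_top⟩
  obtain ⟨M, hM⟩ := hC.exists_bound_of_continuousOn hg
  refine MemLp.of_bound (hg.aestronglyMeasurable hC.measurableSet) M ?_
  exact (ae_restrict_mem hC.measurableSet).mono fun x hx => hM x hx

/-- The local statement for one component. -/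
theorem dbcLoc (hW : S_WIRT) (hP : S_PMP) (hM : S_MLB) (hH : S_HOLL) (a : Cn n) {r : ℝ}
    (hr : 0 < r) {s : ℝ} (f : ℕ → Cn n → ℂ) (hf : ∀ j, ContDiffOn ℝ ∞ (f j) (ball a (2 * (r + r))))
    (hs : ∀ j, ∀ x ∈ closedBall a (r + r), ‖f j x‖ ≤ s)
    (hd : ∀ l, Tendsto (fun j => ∫ x in closedBall a (r + r), ‖cdb l (f j) x‖) atTop (𝓝 0))
    (p : Cn n → ℂ)
    (hp : ∀ δ > 0, ∀ᶠ j in atTop, ∀ x ∈ closedBall a r,
      ‖Pool.Agent.Helper15.HS.mollc (f j) r x - p x‖ ≤ δ) :
    ∃ g : Cn n → ℂ, DifferentiableOn ℂ g (ball a r) ∧ IntegrableOn g (ball a r) ∧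
      Tendsto (fun j => ∫ x in ball a r, ‖f j x - g x‖) atTop (𝓝 0) := by
  obtain ⟨B, hB⟩ := hM n r r hr hr
  have hcb : IsCompact (closedBall a r) := isCompact_closedBall a r
  have hsub : closedBall a (r + r) ⊆ ball a (2 * (r + r)) :=
    closedBall_subset_ball (by linarith)
  have hsub1 : closedBall a r ⊆ ball a (2 * (r + r)) :=
    closedBall_subset_ball (by linarith)
  have hfc : ∀ j, ContinuousOn (f j) (closedBall a r) := fun j => (hf j).continuousOn.mono hsub1
  obtain ⟨u, hu⟩ : ∃ u : ℕ → Cn n → ℂ, ∀ j, u j = Pool.Agent.Helper15.HS.mollc (f j) r :=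
    ⟨_, fun _ => rfl⟩
  have hlip : ∀ j, ∀ x ∈ closedBall a r, ∀ y ∈ closedBall a r,
      ‖u j x - u j y‖ ≤ B * s * ‖x - y‖ := by
    intro j
    rw [hu]
    exact (hB a (f j) s (hf j) (hs j)).2.1
  have huc : ∀ j, ContinuousOn (u j) (closedBall a r) := by
    intro j
    have h1 : LipschitzOnWith (Real.toNNReal (B * s)) (u j) (closedBall a r) := by
      refine LipschitzOnWith.of_dist_le_mul fun x hx y hy => ?_
      rw [dist_eq_norm, dist_eq_norm, Real.coe_toNNReal']
      exact (hlip j x hx y hy).trans (mul_le_mul_of_nonneg_right (le_max_left _ _) (norm_nonneg _))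
    exact h1.continuousOn
  have hus : ∀ j, ContDiffOn ℝ ∞ (u j) (ball a r) := by
    intro j
    rw [hu]
    exact (hB a (f j) s (hf j) (hs j)).2.2.1
  have hud : ∀ j, ∀ x ∈ ball a r, ∀ l, ‖cdb l (u j) x‖ ≤
      B * ∫ y in closedBall a (r + r), ‖cdb l (f j) y‖ := by
    intro j
    rw [hu]
    exact (hB a (f j) s (hf j) (hs j)).2.2.2
  have hup : ∀ δ > 0, ∀ᶠ j in atTop, ∀ x ∈ closedBall a r, ‖u j x - p x‖ ≤ δ := by
    intro δ hδ
    filter_upwards [hp δ hδ] with j hj
    rw [hu]
    exact hj
  have hunif : TendstoUniformlyOn u p atTop (closedBall a r) := by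
    rw [Metric.tendstoUniformlyOn_iff]
    intro δ hδ
    filter_upwards [hup (δ / 2) (half_pos hδ)] with j hj x hx
    rw [dist_comm, dist_eq_norm]
    exact (hj x hx).trans_lt (half_lt_self hδ)
  have hpc : ContinuousOn p (closedBall a r) :=
    hunif.continuousOn (Eventually.of_forall huc).frequently
  -- small integrals
  have hsm : ∀ (C : Set (Cn n)), C ⊆ closedBall a r → ∀ (k : ℕ), 1 ≤ k →
      Tendsto (fun j => ∫ x in C, ‖u j x - p x‖ ^ k) atTop (𝓝 0) := by
    intro C hC k hk
    have hCf : volume C < ⊤ := lt_of_le_of_lt (measure_mono hC) hcb.measure_lt_top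
    rw [Metric.tendsto_atTop']
    intro δ hδ
    have hpos : 0 < min 1 (δ / (volume.real C + 1)) := by positivity
    obtain ⟨J, hJ⟩ := eventually_atTop.1 (hup _ hpos)
    refine ⟨J, fun j hj => ?_⟩
    rw [dist_zero_right]
    have h1 : ‖∫ x in C, ‖u j x - p x‖ ^ k‖ ≤ δ / (volume.real C + 1) * volume.real C := by
      refine norm_setIntegral_le_of_norm_le_const hCf fun x hx => ?_
      have h2 := hJ j hj.le x (hC hx)
      rw [norm_pow, norm_norm]
      calc ‖u j x - p x‖ ^ k ≤ ‖u j x - p x‖ ^ 1 :=
            pow_le_pow_of_le_one (norm_nonneg _) (h2.trans (min_le_left _ _)) hk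
        _ = ‖u j x - p x‖ := pow_one _
        _ ≤ _ := h2.trans (min_le_right _ _)
    refine h1.trans_lt ?_
    rw [div_mul_eq_mul_div, div_lt_iff₀ (by positivity)]
    have : 0 ≤ volume.real C := measureReal_nonneg
    nlinarith
  obtain ⟨g, hg, hpg⟩ := hH (ball a r) isOpen_ball u p hus (by
    intro C hC hCc
    have hC' : C ⊆ closedBall a r := hC.trans ball_subset_closedBall
    refine ⟨memLp_cont hCc (hpc.mono hC'), hsm C hC' 2 (by norm_num), ?_⟩
    have h1 : Tendsto (fun j => (∑ l, (B * ∫ y in closedBall a (r + r), ‖cdb l (f j) y‖) ^ 2) *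
        volume.real C) atTop (𝓝 ((∑ _l : Fin n, (B * 0) ^ 2) * volume.real C)) := by
      refine Tendsto.mul_const _ (tendsto_finsetSum _ fun l _ => ?_)
      exact ((hd l).const_mul B).pow 2
    simp only [mul_zero, ne_eq, OfNat.ofNat_ne_zero, not_false_eq_true, zero_pow,
      Finset.sum_const_zero, zero_mul] at h1
    refine squeeze_zero (fun j => integral_nonneg fun x =>
      Finset.sum_nonneg fun l _ => sq_nonneg _) (fun j => ?_) h1
    refine (Real.le_norm_self _).trans ?_
    refine norm_setIntegral_le_of_norm_le_const hCc.measure_lt_top fun x hx => ?_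
    rw [Real.norm_of_nonneg (Finset.sum_nonneg fun l _ => sq_nonneg _)]
    refine Finset.sum_le_sum fun l _ => ?_
    exact pow_le_pow_left₀ (norm_nonneg _) (hud j x (hC hx) l) 2)
  have hball : (volume.restrict (ball a r)) ≤ volume.restrict (closedBall a r) :=
    Measure.restrict_mono ball_subset_closedBall le_rfl
  have hpi : IntegrableOn p (closedBall a r) := hpc.integrableOn_compact hcb
  have hpib : IntegrableOn p (ball a r) := hpi.mono_set ball_subset_closedBall
  refine ⟨g, hg, ?_, ?_⟩
  · exact Integrable.congr hpib hpg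
  · have hWf := fun j => hW (ball a (2 * (r + r))) isOpen_ball (f j) (f j) (hf j) (hf j)
    have hci : ∀ j l, IntegrableOn (fun x => ‖cdb l (f j) x‖) (closedBall a (r + r)) := by
      intro j l
      have h1 : ContinuousOn (cdb l (f j)) (closedBall a (r + r)) :=
        (((hWf j).1 l).2.continuousOn).mono hsub
      exact (h1.norm).integrableOn_compact (isCompact_closedBall _ _)
    have hlim : Tendsto (fun j => (r * ∑ l, ∫ x in closedBall a (r + r), ‖cdb l (f j) x‖) +
        ∫ x in closedBall a r, ‖u j x - p x‖ ^ 1) atTop (𝓝 ((r * ∑ _l : Fin n, (0 : ℝ)) + 0)) :=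
      ((tendsto_finsetSum _ fun l _ => hd l).const_mul r).add
        (hsm (closedBall a r) subset_rfl 1 le_rfl)
    simp only [Finset.sum_const_zero, mul_zero, add_zero, pow_one] at hlim
    refine squeeze_zero (fun j => integral_nonneg fun x => norm_nonneg _) (fun j => ?_) hlim
    have i1 : IntegrableOn (fun x => ‖f j x - u j x‖) (closedBall a r) :=
      (((hfc j).sub (huc j)).norm).integrableOn_compact hcb
    have i2 : IntegrableOn (fun x => ‖u j x - p x‖) (closedBall a r) :=
      (((huc j).sub hpc).norm).integrableOn_compact hcb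
    have i3 : IntegrableOn (fun x => ‖f j x - p x‖) (closedBall a r) :=
      (((hfc j).sub hpc).norm).integrableOn_compact hcb
    calc ∫ x in ball a r, ‖f j x - g x‖ = ∫ x in ball a r, ‖f j x - p x‖ := by
          refine integral_congr_ae ?_
          filter_upwards [hpg] with x hx
          rw [hx]
      _ ≤ ∫ x in closedBall a r, ‖f j x - p x‖ :=
          setIntegral_mono_set i3 (Eventually.of_forall fun x => norm_nonneg _)
            (LE.le.eventuallyLE ball_subset_closedBall)
      _ ≤ ∫ x in closedBall a r, (‖f j x - u j x‖ + ‖u j x - p x‖) := by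
          refine integral_mono i3 (i1.add i2) fun x => ?_
          exact norm_sub_le_norm_sub_add_norm_sub _ _ _
      _ = (∫ x in closedBall a r, ‖f j x - u j x‖) + ∫ x in closedBall a r, ‖u j x - p x‖ :=
          integral_add i1 i2
      _ ≤ _ := by
          refine add_le_add ?_ le_rfl
          have h2 := hP a r r hr hr (f j) (hf j)
          rw [← hu] at h2
          refine h2.trans (le_of_eq ?_)
          congr 1
          rw [integral_finsetSum]
          exact fun l _ => hci j l

/-- HS-C DBC. -/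
theorem dbc (hW : S_WIRT) (hP : S_PMP) (hM : S_MLB) (hA : S_ARZ) (hH : S_HOLL) : S_DBC := by
  classical
  intro n ι _ T hT f hf hb hd
  rcases T.eq_empty_or_nonempty with rfl | hne
  · refine ⟨id, strictMono_id, fun _ _ => 0, fun c => differentiableOn_const _, ?_⟩
    intro C hC _ c
    rw [Set.subset_empty_iff.1 hC]
    simp
  -- the balls
  have hρ : ∀ x : Cn n, ∃ ρ : ℝ, 0 < ρ ∧ (x ∈ T → closedBall x (2 * (ρ + ρ)) ⊆ T) := by
    intro x
    by_cases hx : x ∈ T
    · obtain ⟨δ, hδ, hsub⟩ := Metric.isOpen_iff.1 hT x hx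
      refine ⟨δ / 8, by linarith, fun _ => (closedBall_subset_ball ?_).trans hsub⟩
      linarith
    · exact ⟨1, one_pos, fun h => absurd h hx⟩
  choose ρ hρ0 hρT using hρ
  obtain ⟨t, htT, htc, hcov⟩ := TopologicalSpace.countable_cover_nhdsWithin
    (f := fun x => ball x (ρ x)) (s := T) fun x _ =>
      mem_nhdsWithin_of_mem_nhds (ball_mem_nhds x (hρ0 x))
  have htne : t.Nonempty := by
    obtain ⟨x, hx⟩ := hne
    obtain ⟨y, hy⟩ := mem_iUnion.1 (hcov hx)
    obtain ⟨hy, -⟩ := mem_iUnion.1 hy
    exact ⟨y, hy⟩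
  obtain ⟨a, rfl⟩ := htc.exists_eq_range htne
  have haT : ∀ i, closedBall (a i) (2 * (ρ (a i) + ρ (a i))) ⊆ T := fun i =>
    hρT _ (htT ⟨i, rfl⟩)
  have hcov' : ∀ x ∈ T, ∃ i, x ∈ ball (a i) (ρ (a i)) := by
    intro x hx
    have h1 := hcov hx
    simp only [mem_iUnion, mem_range, exists_prop, exists_exists_eq_and] at h1
    exact h1
  obtain ⟨r, hr⟩ : ∃ r : ℕ → ℝ, ∀ i, r i = ρ (a i) := ⟨_, fun _ => rfl⟩
  have hr0 : ∀ i, 0 < r i := fun i => by rw [hr]; exact hρ0 _
  have hrT : ∀ i, closedBall (a i) (2 * (r i + r i)) ⊆ T := fun i => by rw [hr]; exact haT i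
  have hcr : ∀ x ∈ T, ∃ i, x ∈ ball (a i) (r i) := by
    intro x hx
    obtain ⟨i, hi⟩ := hcov' x hx
    exact ⟨i, by rw [hr]; exact hi⟩
  have hsub2 : ∀ i, closedBall (a i) (r i + r i) ⊆ T := fun i =>
    (closedBall_subset_closedBall (by linarith [hr0 i])).trans (hrT i)
  have hsubb : ∀ i, ball (a i) (2 * (r i + r i)) ⊆ T := fun i =>
    ball_subset_closedBall.trans (hrT i)
  choose s hs using fun i => hb (closedBall (a i) (r i + r i)) (hsub2 i) (isCompact_closedBall _ _)
  choose B hB using fun i => hM n (r i) (r i) (hr0 i) (hr0 i)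
  obtain ⟨φ, hφ, hlim⟩ := hA (ι := ι) a r s (fun i => B i * s i)
    (fun i j x c => Pool.Agent.Helper15.HS.mollc (fun y => f j y c) (r i) x) hr0
    (fun i j x hx c => (hB i (a i) (fun y => f j y c) (s i) ((hf j c).mono (hsubb i))
      (fun x hx => hs i j x hx c)).1 x hx)
    (fun i j x hx y hy c => (hB i (a i) (fun y => f j y c) (s i) ((hf j c).mono (hsubb i))
      (fun x hx => hs i j x hx c)).2.1 x hx y hy)
  choose p hp using hlim
  have hloc : ∀ i c, ∃ g : Cn n → ℂ, DifferentiableOn ℂ g (ball (a i) (r i)) ∧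
      IntegrableOn g (ball (a i) (r i)) ∧
      Tendsto (fun j => ∫ x in ball (a i) (r i), ‖f (φ j) x c - g x‖) atTop (𝓝 0) := by
    intro i c
    refine dbcLoc hW hP hM hH (a i) (hr0 i) (s := s i) (fun j y => f (φ j) y c)
      (fun j => (hf (φ j) c).mono (hsubb i)) (fun j x hx => hs i (φ j) x hx c) (fun l => ?_)
      (fun x => p i x c) ?_
    · exact (hd _ (hsub2 i) (isCompact_closedBall _ _) l c).comp hφ.tendsto_atTop
    · intro δ hδ
      filter_upwards [hp i δ hδ] with j hj x hx
      exact hj x hx c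
  choose g hg hgi hgl using hloc
  have hfb : ∀ i j c, IntegrableOn (fun x => f j x c) (ball (a i) (r i)) := by
    intro i j c
    refine IntegrableOn.mono_set (ContinuousOn.integrableOn_compact (isCompact_closedBall _ _)
      ((hf j c).continuousOn.mono (hsub2 i))) ?_
    exact ball_subset_closedBall.trans (closedBall_subset_closedBall (by linarith [hr0 i]))
  -- the local functions agree
  have hagree : ∀ i k c, ∀ x ∈ ball (a i) (r i) ∩ ball (a k) (r k), g i c x = g k c x := by
    intro i k c
    have hopen : IsOpen (ball (a i) (r i) ∩ ball (a k) (r k)) := isOpen_ball.inter isOpen_ball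
    have i1 : IntegrableOn (fun x => g i c x - g k c x) (ball (a i) (r i) ∩ ball (a k) (r k)) :=
      ((hgi i c).mono_set inter_subset_left).sub ((hgi k c).mono_set inter_subset_right)
    have hle : ∫ x in ball (a i) (r i) ∩ ball (a k) (r k), ‖g i c x - g k c x‖ ≤ 0 := by
      have hl : Tendsto (fun j => (∫ x in ball (a i) (r i), ‖f (φ j) x c - g i c x‖) +
          ∫ x in ball (a k) (r k), ‖f (φ j) x c - g k c x‖) atTop (𝓝 (0 + 0)) :=
        (hgl i c).add (hgl k c)
      rw [add_zero] at hl
      refine ge_of_tendsto' hl fun j => ?_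
      have j1 : IntegrableOn (fun x => ‖f (φ j) x c - g i c x‖) (ball (a i) (r i)) :=
        ((hfb i (φ j) c).sub (hgi i c)).norm
      have j2 : IntegrableOn (fun x => ‖f (φ j) x c - g k c x‖) (ball (a k) (r k)) :=
        ((hfb k (φ j) c).sub (hgi k c)).norm
      calc ∫ x in ball (a i) (r i) ∩ ball (a k) (r k), ‖g i c x - g k c x‖
          ≤ ∫ x in ball (a i) (r i) ∩ ball (a k) (r k),
            (‖f (φ j) x c - g i c x‖ + ‖f (φ j) x c - g k c x‖) := by
            refine integral_mono i1.norm ((j1.mono_set inter_subset_left).add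
              (j2.mono_set inter_subset_right)) fun x => ?_
            have h3 := norm_sub_le_norm_sub_add_norm_sub (g i c x) (f (φ j) x c) (g k c x)
            rw [norm_sub_rev (g i c x) (f (φ j) x c)] at h3
            exact h3
        _ = (∫ x in ball (a i) (r i) ∩ ball (a k) (r k), ‖f (φ j) x c - g i c x‖) +
            ∫ x in ball (a i) (r i) ∩ ball (a k) (r k), ‖f (φ j) x c - g k c x‖ :=
            integral_add (j1.mono_set inter_subset_left) (j2.mono_set inter_subset_right)
        _ ≤ _ := add_le_add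
            (setIntegral_mono_set j1 (Eventually.of_forall fun x => norm_nonneg _)
              (LE.le.eventuallyLE inter_subset_left))
            (setIntegral_mono_set j2 (Eventually.of_forall fun x => norm_nonneg _)
              (LE.le.eventuallyLE inter_subset_right))
    have h0 : ∫ x in ball (a i) (r i) ∩ ball (a k) (r k), ‖g i c x - g k c x‖ = 0 :=
      le_antisymm hle (integral_nonneg fun x => norm_nonneg _)
    rw [integral_eq_zero_iff_of_nonneg (fun x => norm_nonneg _) i1.norm] at h0
    have h1 : (g i c) =ᵐ[volume.restrict (ball (a i) (r i) ∩ ball (a k) (r k))] (g k c) := by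
      filter_upwards [h0] with x hx
      have hx' : ‖g i c x - g k c x‖ = 0 := hx
      exact sub_eq_zero.1 (norm_eq_zero.1 hx')
    exact Measure.eqOn_open_of_ae_eq h1 hopen
      ((hg i c).continuousOn.mono inter_subset_left)
      ((hg k c).continuousOn.mono inter_subset_right)
  obtain ⟨P, hPdef⟩ : ∃ P : Cn n → ι → ℂ, ∀ x c, P x c =
      if h : ∃ i, x ∈ ball (a i) (r i) then g h.choose c x else 0 := ⟨_, fun _ _ => rfl⟩
  have hPg : ∀ i c, ∀ x ∈ ball (a i) (r i), P x c = g i c x := by
    intro i c x hx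
    have h : ∃ i, x ∈ ball (a i) (r i) := ⟨i, hx⟩
    rw [hPdef, dif_pos h]
    exact hagree _ _ c x ⟨h.choose_spec, hx⟩
  refine ⟨φ, hφ, P, fun c => ?_, ?_⟩
  · intro x hx
    obtain ⟨i, hi⟩ := hcr x hx
    have h1 : DifferentiableAt ℂ (g i c) x := (hg i c).differentiableAt (isOpen_ball.mem_nhds hi)
    have h2 : (fun x => P x c) =ᶠ[𝓝 x] g i c := by
      filter_upwards [isOpen_ball.mem_nhds hi] with y hy
      exact hPg i c y hy
    exact (h1.congr_of_eventuallyEq h2).differentiableWithinAt
  · intro C hC hCc c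
    obtain ⟨I, hI⟩ := hCc.elim_finite_subcover (fun i => ball (a i) (r i)) (fun i => isOpen_ball)
      fun x hx => mem_iUnion.2 (hcr x (hC hx))
    have hlim2 : Tendsto (fun j => ∑ i ∈ I, ∫ x in ball (a i) (r i), ‖f (φ j) x c - g i c x‖)
        atTop (𝓝 (∑ i ∈ I, (0 : ℝ))) := tendsto_finsetSum _ fun i _ => hgl i c
    rw [Finset.sum_const_zero] at hlim2
    refine squeeze_zero (fun j => integral_nonneg fun x => norm_nonneg _) (fun j => ?_) hlim2
    have k1 : ∀ i, Integrable (indicator (ball (a i) (r i)) fun x => ‖f (φ j) x c - g i c x‖) :=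
      fun i => (integrable_indicator_iff isOpen_ball.measurableSet).2
        ((hfb i (φ j) c).sub (hgi i c)).norm
    calc ∫ x in C, ‖f (φ j) x c - P x c‖ =
          ∫ x, indicator C (fun x => ‖f (φ j) x c - P x c‖) x :=
          (integral_indicator hCc.measurableSet).symm
      _ ≤ ∫ x, ∑ i ∈ I, indicator (ball (a i) (r i)) (fun x => ‖f (φ j) x c - g i c x‖) x := by
          refine integral_mono_of_nonneg
            (Eventually.of_forall fun x => indicator_nonneg (fun _ _ => norm_nonneg _) x)
            (integrable_finsetSum _ fun i _ => k1 i) (Eventually.of_forall fun x => ?_)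
          have hnn : ∀ i ∈ I, 0 ≤ indicator (ball (a i) (r i))
              (fun x => ‖f (φ j) x c - g i c x‖) x := fun i _ =>
            indicator_nonneg (fun _ _ => norm_nonneg _) x
          by_cases hx : x ∈ C
          · obtain ⟨i, hiI⟩ := mem_iUnion.1 (hI hx)
            obtain ⟨hiI, hxi⟩ := mem_iUnion.1 hiI
            change indicator C (fun x => ‖f (φ j) x c - P x c‖) x ≤ _
            rw [indicator_of_mem hx]
            have h5 := Finset.single_le_sum hnn hiI
            rw [indicator_of_mem hxi] at h5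
            rw [hPg i c x hxi]
            exact h5
          · change indicator C (fun x => ‖f (φ j) x c - P x c‖) x ≤ _
            rw [indicator_of_notMem hx]
            exact Finset.sum_nonneg hnn
      _ = ∑ i ∈ I, ∫ x, indicator (ball (a i) (r i)) (fun x => ‖f (φ j) x c - g i c x‖) x :=
          integral_finsetSum _ fun i _ => k1 i
      _ = _ := Finset.sum_congr rfl fun i _ => integral_indicator isOpen_ball.measurableSet

end Pool.Agent.Helper77.HS
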